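import Pool.Agent.Helper68.ES.St3

/-!
Project ES, module TWE: poor points.
-/

set_option autoImplicit false

open MeasureTheory Set Filter Topology
open scoped ENNReal RealInnerProductSpace

namespace Pool.Agent.Helper47.ES

open Pool.Agent.Helper68.ES Pool.Agent.Helper68.EP Pool.Agent.Helper20.RG
open Pool.Agent.Helper20.RL (RQ Rich BM Fml Hit)
open Pool.Agent.Helper68.LM (Pl BB Bd Av HL ft fm DQ)

theorem floor_dist {x y : ℝ} (h : |x - y| < 2) : |⌊x⌋ - ⌊y⌋| ≤ 2 := by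
  have h1 := abs_lt.1 h
  have hx1 := Int.floor_le x
  have hx2 := Int.lt_floor_add_one x
  have hy1 := Int.floor_le y
  have hy2 := Int.lt_floor_add_one y
  have e1 : ((⌊x⌋ - ⌊y⌋ : ℤ) : ℝ) < 3 := by push_cast; linarith
  have e2 : (-3 : ℝ) < ((⌊x⌋ - ⌊y⌋ : ℤ) : ℝ) := by push_cast; linarith
  have e1' : ⌊x⌋ - ⌊y⌋ < 3 := by exact_mod_cast e1
  have e2' : -3 < ⌊x⌋ - ⌊y⌋ := by exact_mod_cast e2
  rw [abs_le]
  constructor <;> omega

theorem hTWE (hLGR : Pool.Agent.Helper20.RL.StLGR) (hEQ : Pool.Agent.Helper68.EP.StEQ)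
    (hLAY : StLAY) (hDRB : StDRB) : Pool.Agent.Helper68.ES.StTWE := by
  intro H κ g D' d₀ κ₀ s z hBM hKap hg hD' hd₀ h4 hs hz
  have hg' : (1 : ℤ) ≤ (g : ℤ) := by exact_mod_cast hg
  have hzH : z ∈ H := hz.1
  obtain ⟨l, hl⟩ : ∃ l : ℤ, l = κ z / (g : ℤ) := ⟨_, rfl⟩
  have hR : Rz κ g z = (l + 3) * g := by rw [hl]; rfl
  have hκ : κ z < (l + 1) * g := by
    rw [hl]
    exact Int.lt_ediv_add_one_mul_self (κ z) (by omega)
  have hRl : (l + 1) * g ≤ Rz κ g z := by
    rw [hR]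
    nlinarith
  constructor
  · intro hIn B hB
    have hsub : {z' | z' ∈ Ns H κ g d₀ ∧ Rz κ g z' ≤ Rz κ g z} ∩ RQ s (Rz κ g z) B z ⊆
        Gl H (Ns H κ g d₀) κ g l ∩ RQ s (Rz κ g z) B z := by
      rintro z' ⟨⟨h1, h2⟩, h3⟩
      refine ⟨⟨h1.1, ?_, z, hz, hl.symm, ?_⟩, h3⟩
      · have h2' : (κ z' / (g : ℤ) + 3) * g ≤ (l + 3) * g := by
          rw [← hR]
          exact h2
        have := le_of_mul_le_mul_right h2' (by omega : (0 : ℤ) < g)
        omega
      · rw [← hR]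
        have hp : (0 : ℝ) < (2 : ℝ) ^ (Rz κ g z) := by positivity
        refine ⟨?_, ?_⟩
        · rw [h3.1, sub_self, abs_zero]
          norm_num
        · apply floor_dist
          obtain ⟨-, -, h5⟩ := hLGR.2.2.2.1 s (Rz κ g z) B z z' hs h3
          have h6 : (2 : ℝ) ^ B ≤ (2 : ℝ) ^ (Rz κ g z) :=
            zpow_le_zpow_right₀ (by norm_num) hB.le
          rw [← sub_div, abs_div, abs_of_pos hp, div_lt_iff₀ hp]
          linarith
    have hnr : ¬ Rich (Gl H (Ns H κ g d₀) κ g l) s (Rz κ g z) B κ₀ z := by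
      intro hrich
      rcases le_or_gt B ((l + 1) * g) with hB1 | hB1
      · apply hIn
        refine ⟨hz, B, ?_, ?_⟩
        · rw [← hl]
          exact hB1
        · rw [← hl]
          exact hrich
      · have hDn := ((hLAY H κ g D' d₀ hBM hKap hg hD' hd₀).2.2 l).2.1
        have h7 := (hDRB _ D' ((l + 1) * g) hD'.le hDn).2.2.1 s (Rz κ g z) B κ₀ z hs hRl h4 hrich
        omega
    unfold Rich at hnr
    rw [not_le] at hnr
    exact (measure_mono hsub).trans hnr.le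
  · intro b hb
    have h1 := hKap.2 z hzH b (by omega)
    exact (measure_mono (inter_subset_inter_right H (hEQ.1 b z).2.2.1)).trans h1

end Pool.Agent.Helper47.ES
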