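import Pool.Agent.Helper85.ES.StI1

/-!
Project ES, part I, module OCP: many hits with few neighbours.
-/

set_option autoImplicit false

open MeasureTheory Set Filter Topology
open scoped ENNReal RealInnerProductSpace

namespace Pool.Agent.Helper47.ES

open Pool.Agent.Helper85.ES Pool.Agent.Helper20.RG Pool.Agent.Helper20.RL
open Pool.Agent.Helper68.EP (Fb DQ3 Par Dat Sy q0 q1 DD Fo Rs)
open Pool.Agent.Helper61.EP (Nn D8 trS dat Yc)
open Pool.Agent.Helper68.ES (ag Eg th Rc hn Crit cr Lw)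
open Pool.Agent.Helper68.LM (Pl BB Bd Av HL ft fm DQ)

/-- Chebyshev for arbitrary sets -/
theorem ocp_cheb {ι : Type} (P : Finset ι) (H : ι → Set Pl) (c : ℝ≥0∞) (S : Set Pl)
    (hS : ∀ x ∈ S, c ≤ ∑ i ∈ P, (H i).indicator (fun _ => (1 : ℝ≥0∞)) x) :
    c * volume S ≤ ∑ i ∈ P, volume (H i) := by
  have hm1 : ∀ i ∈ P, Measurable fun x : Pl =>
      (toMeasurable volume (H i)).indicator (fun _ => (1 : ℝ≥0∞)) x := fun i _ =>
    measurable_const.indicator (measurableSet_toMeasurable _ _)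
  have hm : Measurable fun x : Pl =>
      ∑ i ∈ P, (toMeasurable volume (H i)).indicator (fun _ => (1 : ℝ≥0∞)) x :=
    Finset.measurable_fun_sum _ hm1
  calc c * volume S ≤ c * volume {x : Pl | c ≤
        ∑ i ∈ P, (toMeasurable volume (H i)).indicator (fun _ => (1 : ℝ≥0∞)) x} := by
        gcongr
        intro x hx
        exact (hS x hx).trans (Finset.sum_le_sum fun i _ =>
          indicator_le_indicator_of_subset (subset_toMeasurable _ _) (fun _ => bot_le) x)
    _ ≤ ∫⁻ x : Pl, ∑ i ∈ P, (toMeasurable volume (H i)).indicator (fun _ => (1 : ℝ≥0∞)) x :=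
        mul_meas_ge_le_lintegral hm _
    _ = ∑ i ∈ P, volume (H i) := by
        rw [lintegral_finsetSum _ hm1]
        refine Finset.sum_congr rfl fun i _ => ?_
        rw [lintegral_indicator (measurableSet_toMeasurable _ _), setLIntegral_const, one_mul,
          measure_toMeasurable]

/-- the number of far pairs -/
theorem ocp_count (J : Finset ℕ) (N : ℕ) (hJ : ∀ j ∈ J, j < N) (far : ℕ → ℕ → Prop) (m : ℝ)
    (hm : 0 < m) (hJm : m ≤ (J.card : ℝ))
    (hnear : ∀ j < N, ({j' : ℕ | j' < N ∧ ¬ far j j'}.ncard : ℝ) ≤ m / 4) :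
    3 / 4 * m ^ 2 ≤ ∑ j ∈ J, (({j' : ℕ | j' ∈ J ∧ far j j'}.ncard : ℕ) : ℝ) := by
  classical
  have h1 : ∀ j ∈ J, (J.card : ℝ) - m / 4 ≤ (({j' : ℕ | j' ∈ J ∧ far j j'}.ncard : ℕ) : ℝ) := by
    intro j hj
    have e1 : {j' : ℕ | j' ∈ J ∧ far j j'} = ((J.filter fun j' => far j j' : Finset ℕ) : Set ℕ) := by
      ext x
      simp
    have e2 : ((J.filter fun j' => ¬ far j j' : Finset ℕ) : Set ℕ) ⊆
        {j' : ℕ | j' < N ∧ ¬ far j j'} := by
      intro x hx
      have hx' : x ∈ J.filter fun j' => ¬ far j j' := hx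
      rw [Finset.mem_filter] at hx'
      exact ⟨hJ x hx'.1, hx'.2⟩
    have e3 : (J.filter fun j' => ¬ far j j').card ≤ {j' : ℕ | j' < N ∧ ¬ far j j'}.ncard := by
      rw [← Set.ncard_coe_finset]
      exact Set.ncard_le_ncard e2 ((Set.finite_lt_nat N).subset fun _ h => h.1)
    have e4 : ((J.filter fun j' => ¬ far j j').card : ℝ) ≤ m / 4 :=
      le_trans (by exact_mod_cast e3) (hnear j (hJ j hj))
    have e5 := Finset.card_filter_add_card_filter_not (s := J) (fun j' => far j j')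
    have e6 : ((J.filter fun j' => far j j').card : ℝ) +
        ((J.filter fun j' => ¬ far j j').card : ℝ) = J.card := by
      exact_mod_cast e5
    rw [e1, Set.ncard_coe_finset]
    linarith
  calc 3 / 4 * m ^ 2 ≤ (J.card : ℝ) * ((J.card : ℝ) - m / 4) := by nlinarith
    _ = ∑ _j ∈ J, ((J.card : ℝ) - m / 4) := by rw [Finset.sum_const, nsmul_eq_mul]
    _ ≤ _ := Finset.sum_le_sum h1

theorem hOCP (hLGR : Pool.Agent.Helper20.RL.StLGR) (hLFM : Pool.Agent.Helper20.RL.StLFM)
    (hLLM : Pool.Agent.Helper20.RL.StLLM) (hOCL : Pool.Agent.Helper85.ES.StOCL) :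
    Pool.Agent.Helper85.ES.StOCP := by
  classical
  intro u τ k sl c m F D η m₁ ρ hu huk hτ hF hD hD0 hη hm₁ hj hρ hρk hnear
  have hη0 : 0 < η := by linarith
  obtain ⟨hl0, hlm, -, -, -, -, hthr⟩ := hLLM u hu
  obtain ⟨ht0, ht⟩ := hthr η hη0
  have hla : ∀ t : ℕ, k - (u : ℤ) ≤ k + lad u t := by
    intro t
    have := hlm (Nat.zero_le t)
    rw [hl0] at this
    omega
  set V : ℕ → Set Pl := fun j => CU F (sl j) (m j) u η τ k with hV
  set H : ℕ → Set Pl := fun j => {x | Hit (sl j) (c j) (m j) u k (V j) x} with hH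
  -- cells
  have hcell : ∀ j, ∀ y ∈ V j, RQ (sl j) (k - (u : ℤ)) (k - (m j : ℤ)) y ⊆ V j := by
    intro j y hy z hz
    have hr : ∀ (t : ℕ) (θ : ℝ), Rich F (sl j) (k + lad u t) (k - (m j : ℤ)) θ z ↔
        Rich F (sl j) (k + lad u t) (k - (m j : ℤ)) θ y := by
      intro t θ
      exact (hLFM.1 F (sl j) (k + lad u t) (k - (m j : ℤ)) θ).2 y z
        (hLGR.2.2.1 (sl j) _ _ _ _ y (hla t) le_rfl hz)
    obtain ⟨⟨h1, h2⟩, h3⟩ := hy
    refine ⟨⟨(hr _ _).2 h1, fun h => ?_⟩, fun t ht' => (hr _ _).2 (h3 t ht')⟩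
    intro h4
    exact h2 h ((hr _ _).1 h4)
  have hrich : ∀ j, V j ⊆ {y | Rich F (sl j) (k - (u : ℤ)) (k - (m j : ℤ)) η y} := by
    intro j y hy
    have h1 := hy.2 0 (Nat.zero_le _)
    rw [hl0, ht0] at h1
    exact h1
  have hvol : ∀ j, volume (V j) ≤ ENNReal.ofReal (1 / η) * volume (F ∩ UU F (sl j) (m j) u η τ k) := by
    intro j
    have hfml : Fml F (sl j) η (V j) (fun _ => k - (u : ℤ)) (fun _ => k - (m j : ℤ)) :=
      ⟨fun z hz z' hz' => ⟨hcell j z hz hz', rfl, rfl⟩, fun z hz => hrich j hz⟩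
    refine (hLFM.2 F (sl j) η (V j) _ _ hF.1 hfml hη0).2.2.2.trans ?_
    gcongr
    intro y hy
    exact hy.1
  -- far pairs
  have hfar : ∀ j < 2 ^ u, ∀ j' < 2 ^ u, ρ ≤ |sl j' - sl j| →
      volume (H j ∩ H j') ≤ ENNReal.ofReal (161700 * D / η) * volume (V j) := by
    intro j hj1 j' hj1' hfar
    have h1 : 1 ≤ |sl j' - sl j| * (2 : ℝ) ^ (k - (u : ℤ)) := by
      refine hρk.trans ?_
      gcongr
    refine le_trans (measure_mono ?_) (hOCL F (V j) (sl j') (sl j) (c j') (c j) (m j') (m j) u k D η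
      (hj j' hj1').1 (hj j hj1).1 hF hD hD0 hη huk (hj j' hj1').2 h1 (hcell j))
    rintro x ⟨hx1, y, hy, hy1, hy2⟩
    exact ⟨hx1, y, hrich j' hy, hy1, hy2⟩
  -- Chebyshev
  have hcheb := ocp_cheb ((Finset.range (2 ^ u) ×ˢ Finset.range (2 ^ u)).filter
      (fun q => ρ ≤ |sl q.2 - sl q.1|)) (fun q => H q.1 ∩ H q.2) (ENNReal.ofReal (3 / 4 * m₁ ^ 2))
    {x | m₁ ≤ ({j : ℕ | j < 2 ^ u ∧
        Hit (sl j) (c j) (m j) u k (CU F (sl j) (m j) u η τ k) x}.ncard : ℝ)} ?_
  · have hsum : ∑ q ∈ (Finset.range (2 ^ u) ×ˢ Finset.range (2 ^ u)).filter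
        (fun q => ρ ≤ |sl q.2 - sl q.1|), volume (H q.1 ∩ H q.2) ≤
        ENNReal.ofReal (161700 * 2 ^ u * D / η ^ 2) *
          ∑ j ∈ Finset.range (2 ^ u), volume (F ∩ UU F (sl j) (m j) u η τ k) := by
      calc ∑ q ∈ (Finset.range (2 ^ u) ×ˢ Finset.range (2 ^ u)).filter
            (fun q => ρ ≤ |sl q.2 - sl q.1|), volume (H q.1 ∩ H q.2)
          ≤ ∑ q ∈ (Finset.range (2 ^ u) ×ˢ Finset.range (2 ^ u)).filter
            (fun q => ρ ≤ |sl q.2 - sl q.1|), ENNReal.ofReal (161700 * D / η) * volume (V q.1) := by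
            refine Finset.sum_le_sum fun q hq => ?_
            rw [Finset.mem_filter, Finset.mem_product, Finset.mem_range, Finset.mem_range] at hq
            exact hfar _ hq.1.1 _ hq.1.2 hq.2
        _ ≤ ∑ q ∈ Finset.range (2 ^ u) ×ˢ Finset.range (2 ^ u),
              ENNReal.ofReal (161700 * D / η) * volume (V q.1) :=
            Finset.sum_le_sum_of_subset (Finset.filter_subset _ _)
        _ = ∑ j ∈ Finset.range (2 ^ u), ∑ _j' ∈ Finset.range (2 ^ u),
              ENNReal.ofReal (161700 * D / η) * volume (V j) := Finset.sum_product _ _ _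
        _ ≤ ∑ j ∈ Finset.range (2 ^ u), ENNReal.ofReal (161700 * 2 ^ u * D / η ^ 2) *
              volume (F ∩ UU F (sl j) (m j) u η τ k) := by
            refine Finset.sum_le_sum fun j _ => ?_
            rw [Finset.sum_const, Finset.card_range, nsmul_eq_mul]
            calc ((2 ^ u : ℕ) : ℝ≥0∞) * (ENNReal.ofReal (161700 * D / η) * volume (V j))
                ≤ ((2 ^ u : ℕ) : ℝ≥0∞) * (ENNReal.ofReal (161700 * D / η) *
                    (ENNReal.ofReal (1 / η) * volume (F ∩ UU F (sl j) (m j) u η τ k))) := by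
                  gcongr
                  exact hvol j
              _ = ENNReal.ofReal (161700 * 2 ^ u * D / η ^ 2) *
                    volume (F ∩ UU F (sl j) (m j) u η τ k) := by
                  rw [← ENNReal.ofReal_natCast, ← mul_assoc, ← mul_assoc,
                    ← ENNReal.ofReal_mul (by positivity), ← ENNReal.ofReal_mul (by positivity)]
                  congr 2
                  push_cast
                  field_simp
        _ = _ := by rw [Finset.mul_sum]
    have hfin := hcheb.trans hsum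
    set S : Set Pl := {x | m₁ ≤ ({j : ℕ | j < 2 ^ u ∧
        Hit (sl j) (c j) (m j) u k (CU F (sl j) (m j) u η τ k) x}.ncard : ℝ)} with hSdef
    calc volume S = ENNReal.ofReal (1 / (3 / 4 * m₁ ^ 2)) *
          (ENNReal.ofReal (3 / 4 * m₁ ^ 2) * volume S) := by
          rw [← mul_assoc, ← ENNReal.ofReal_mul (by positivity),
            one_div_mul_cancel (by positivity), ENNReal.ofReal_one, one_mul]
      _ ≤ ENNReal.ofReal (1 / (3 / 4 * m₁ ^ 2)) * (ENNReal.ofReal (161700 * 2 ^ u * D / η ^ 2) *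
          ∑ j ∈ Finset.range (2 ^ u), volume (F ∩ UU F (sl j) (m j) u η τ k)) := by
          gcongr
      _ = ENNReal.ofReal (215600 * 2 ^ u * D / (η ^ 2 * m₁ ^ 2)) *
          ∑ j ∈ Finset.range (2 ^ u), volume (F ∩ UU F (sl j) (m j) u η τ k) := by
          rw [← mul_assoc, ← ENNReal.ofReal_mul (by positivity)]
          congr 2
          field_simp
          norm_num
      _ ≤ _ := by
          gcongr
          norm_num
  · intro x hx
    have hx' : m₁ ≤ ({j : ℕ | j < 2 ^ u ∧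
        Hit (sl j) (c j) (m j) u k (CU F (sl j) (m j) u η τ k) x}.ncard : ℝ) := hx
    obtain ⟨J, hJ⟩ : ∃ J : Finset ℕ, J = (Finset.range (2 ^ u)).filter fun j => x ∈ H j := ⟨_, rfl⟩
    have hJc : ({j : ℕ | j < 2 ^ u ∧
        Hit (sl j) (c j) (m j) u k (CU F (sl j) (m j) u η τ k) x}.ncard : ℝ) = J.card := by
      rw [← Set.ncard_coe_finset]
      congr 2
      ext j
      rw [hJ]
      simp only [Finset.coe_filter, Finset.mem_range]
      rfl
    rw [hJc] at hx'
    have hJN : ∀ j ∈ J, j < 2 ^ u := by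
      intro j hj'
      rw [hJ, Finset.mem_filter, Finset.mem_range] at hj'
      exact hj'.1
    have hcount := ocp_count J (2 ^ u) hJN (fun j j' => ρ ≤ |sl j' - sl j|) m₁ hm₁ hx' (by
      intro j hj'
      simp only [not_le]
      exact hnear j hj')
    refine (ENNReal.ofReal_le_ofReal hcount).trans ?_
    have e1 : ∑ j ∈ J, (({j' : ℕ | j' ∈ J ∧ ρ ≤ |sl j' - sl j|}.ncard : ℕ) : ℝ) =
        ((∑ j ∈ J, (J.filter fun j' => ρ ≤ |sl j' - sl j|).card : ℕ) : ℝ) := by
      push_cast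
      refine Finset.sum_congr rfl fun j _ => ?_
      rw [← Set.ncard_coe_finset]
      congr 2
      ext x'
      simp
    rw [e1, ENNReal.ofReal_natCast]
    rw [Finset.sum_filter, Finset.sum_product]
    have e2 : ∀ j j' : ℕ, (H j ∩ H j').indicator (fun _ => (1 : ℝ≥0∞)) x =
        if x ∈ H j ∧ x ∈ H j' then 1 else 0 := fun j j' => by
      rw [Set.indicator_apply]
      rfl
    simp only [e2]
    calc ((∑ j ∈ J, (J.filter fun j' => ρ ≤ |sl j' - sl j|).card : ℕ) : ℝ≥0∞)
        = ∑ j ∈ J, ∑ j' ∈ J, (if ρ ≤ |sl j' - sl j| then (1 : ℝ≥0∞) else 0) := by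
          push_cast
          refine Finset.sum_congr rfl fun j _ => ?_
          rw [Finset.sum_ite]
          simp
      _ = ∑ j ∈ J, ∑ j' ∈ J, (if ρ ≤ |sl j' - sl j| then
            (if x ∈ H j ∧ x ∈ H j' then (1 : ℝ≥0∞) else 0) else 0) := by
          refine Finset.sum_congr rfl fun j hj1 => Finset.sum_congr rfl fun j' hj2 => ?_
          rw [hJ, Finset.mem_filter] at hj1 hj2
          rw [if_pos (⟨hj1.2, hj2.2⟩ : x ∈ H j ∧ x ∈ H j')]
      _ ≤ ∑ j ∈ Finset.range (2 ^ u), ∑ j' ∈ Finset.range (2 ^ u), (if ρ ≤ |sl j' - sl j| then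
            (if x ∈ H j ∧ x ∈ H j' then (1 : ℝ≥0∞) else 0) else 0) := by
          have hsub : J ⊆ Finset.range (2 ^ u) := by
            rw [hJ]
            exact Finset.filter_subset _ _
          refine (Finset.sum_le_sum fun j _ => Finset.sum_le_sum_of_subset hsub).trans
            (Finset.sum_le_sum_of_subset hsub)

end Pool.Agent.Helper47.ES
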