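import Pool.Agent.Helper85.ES.StI2
import Pool.Agent.Helper90.RL.M_PCT

/-!
# Project ES, part I, module OCT: one class (after `Pool.Agent.Helper51.EP.M_CCT`)
-/

set_option autoImplicit false

open MeasureTheory Set Filter Topology
open scoped ENNReal RealInnerProductSpace

namespace Pool.Agent.Helper47.ES

open Pool.Agent.Helper85.ES Pool.Agent.Helper20.RG Pool.Agent.Helper20.RL
open Pool.Agent.Helper68.EP (Fb DQ3 Par Dat Sy q0 q1 DD Fo Rs)
open Pool.Agent.Helper61.EP (Nn D8 trS dat Yc)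
open Pool.Agent.Helper68.ES (ag Eg th Rc hn Crit cr Lw)
open Pool.Agent.Helper68.LM (Pl BB Bd Av HL ft fm DQ)
open Pool.Agent.Helper90.RL (pct_lad pct_lad0 pct_sum pct_exp pct_mul_le)

theorem oct_star (u i : ℕ) (δ m₁ : ℝ) (h : (2 : ℝ) ^ (-(δ * u)) ≤ m₁ * th i) (hm : 0 < m₁) :
    (2 : ℝ) ^ ((i : ℝ) - δ * u) ≤ m₁ := by
  have h1 : (2 : ℝ) ^ ((i : ℝ) - δ * u) = (2 : ℝ) ^ i * (2 : ℝ) ^ (-(δ * u)) := by
    rw [sub_eq_add_neg, Real.rpow_add (by norm_num), Real.rpow_natCast]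
  have h2 : (2 : ℝ) ^ i * th i = 1 / 36 := by
    unfold th
    rw [zpow_neg, zpow_natCast]
    field_simp
  have h3 : (0 : ℝ) < (2 : ℝ) ^ i := by positivity
  rw [h1]
  calc (2 : ℝ) ^ i * (2 : ℝ) ^ (-(δ * u)) ≤ (2 : ℝ) ^ i * (m₁ * th i) := by gcongr
    _ = m₁ * ((2 : ℝ) ^ i * th i) := by ring
    _ = m₁ * (1 / 36) := by rw [h2]
    _ ≤ m₁ := by linarith

/-- module OCT -/
theorem hOCT (hLLM : Pool.Agent.Helper20.RL.StLLM) (hPCI : Pool.Agent.Helper20.RL.StPCI)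
    (hLPA : Pool.Agent.Helper20.RL.StLPA) (hPPB : Pool.Agent.Helper20.RL.StPPB)
    (hLXM : Pool.Agent.Helper20.RL.StLXM) (hPXR : Pool.Agent.Helper20.RL.StPXR)
    (hCNA : Pool.Agent.Helper61.EP.StCNA) (hCNB : Pool.Agent.Helper61.EP.StCNB)
    (hOEX : Pool.Agent.Helper85.ES.StOEX) (hONC : Pool.Agent.Helper85.ES.StONC)
    (hOND : Pool.Agent.Helper85.ES.StOND) (hONB : Pool.Agent.Helper85.ES.StONB)
    (hONX : Pool.Agent.Helper85.ES.StONX) (hONE : Pool.Agent.Helper85.ES.StONE)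
    (hONI : Pool.Agent.Helper85.ES.StONI) (hONN : Pool.Agent.Helper85.ES.StONN)
    (hOCP : Pool.Agent.Helper85.ES.StOCP) : Pool.Agent.Helper85.ES.StOCT := by
  intro A p s e ε e₂ Cf hA hSm hCf hε he₂
  obtain ⟨hp1', hp2', hpp, he, he100, hsp1, hsp⟩ := id hSm
  obtain ⟨hEx, hp13, hp131, hs129⟩ := hOEX p s e hSm
  obtain ⟨κ, hκ, hPCIk⟩ := hPCI
  obtain ⟨C₄, hC₄, hXR⟩ := hPXR
  obtain ⟨uC, δC, CC, εC, hδC, hCC, hεC, hNC⟩ :=
    hONC A p s (p - 1 + e / 100) κ Cf ε (e₂ / 2) hA hEx hκ hCf hε (by linarith)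
  obtain ⟨δD, CD, εD, hδD, hCD, hεD, hND⟩ :=
    hOND A p s (p - 1 + e / 100) κ C₄ Cf hA hEx hκ hC₄ hCf
  obtain ⟨CB, εB, hCB, hεB, hNBB⟩ := hONB A p s e C₄ hA hSm hC₄
  obtain ⟨CX, εX, hCX, hεX, hNX⟩ := hONX p s e 216000 hSm (by norm_num)
  obtain ⟨CE, εE, hCE, hεE, hNE⟩ := hONE A p s e κ hA hSm hκ
  obtain ⟨uI, hNI⟩ := hONI A p s e hA hSm
  obtain ⟨uN, hNN⟩ := hONN A p s e hA hSm
  obtain ⟨δ, hδ0, hδ1, hδ2, hδ3, hδ4, hδ5⟩ : ∃ δ : ℝ, 0 < δ ∧ δ ≤ δC ∧ δ ≤ δD ∧ δ ≤ (s - 1) / 2 ∧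
      δ ≤ e / 200 ∧ δ ≤ e₂ / 2 := by
    refine ⟨min (min δC δD) (min (min ((s - 1) / 2) (e / 200)) (e₂ / 2)), ?_, ?_, ?_, ?_, ?_, ?_⟩
    · exact lt_min (lt_min hδC hδD) (lt_min (lt_min (by linarith) (by linarith)) (by linarith))
    · exact (min_le_left _ _).trans (min_le_left _ _)
    · exact (min_le_left _ _).trans (min_le_right _ _)
    · exact (min_le_right _ _).trans ((min_le_left _ _).trans (min_le_left _ _))
    · exact (min_le_right _ _).trans ((min_le_left _ _).trans (min_le_right _ _))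
    · exact (min_le_right _ _).trans (min_le_right _ _)
  have hδ6 : δ ≤ 1 / 100 := by linarith
  have hδ7 : δ ≤ e / 100 := by linarith
  obtain ⟨CA, εA, hCA, hεA, hNA⟩ := hCNA p (p - 1 - e / 100) δ (by linarith)
  obtain ⟨uB, hNB⟩ := hCNB s δ (by linarith) (hsp.trans hp2') hδ0.le
  obtain ⟨u₁, hu₁⟩ := pow_unbounded_of_one_lt Cf (show (1 : ℝ) < 2 by norm_num)
  obtain ⟨C, hC⟩ : ∃ C : ℝ, C = CA + CC + CD + CB + CX + CE := ⟨_, rfl⟩
  obtain ⟨ε', hε'0, hεA', hεC', hεD', hεB', hεX', hεE'⟩ : ∃ ε' : ℝ, 0 < ε' ∧ ε' ≤ εA ∧ ε' ≤ εC ∧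
      ε' ≤ εD ∧ ε' ≤ εB ∧ ε' ≤ εX ∧ ε' ≤ εE := by
    refine ⟨min (min εA εC) (min (min εD εB) (min εX εE)), ?_, ?_, ?_, ?_, ?_, ?_, ?_⟩
    · exact lt_min (lt_min hεA hεC) (lt_min (lt_min hεD hεB) (lt_min hεX hεE))
    · exact (min_le_left _ _).trans (min_le_left _ _)
    · exact (min_le_left _ _).trans (min_le_right _ _)
    · exact (min_le_right _ _).trans ((min_le_left _ _).trans (min_le_left _ _))
    · exact (min_le_right _ _).trans ((min_le_left _ _).trans (min_le_right _ _))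
    · exact (min_le_right _ _).trans ((min_le_right _ _).trans (min_le_left _ _))
    · exact (min_le_right _ _).trans ((min_le_right _ _).trans (min_le_right _ _))
  refine ⟨uB + uC + uI + uN + u₁, δ, C, ε', hδ0, by rw [hC]; positivity, hε'0, ?_⟩
  intro u q i τ sl c m F m₁ hu hu2 hSlo hcm hK hq hCrit halt hF hCtl hNm hτ
  have huB : uB ≤ u := by omega
  have huC : uC ≤ u := by omega
  have huI : uI ≤ u := by omega
  have huN : uN ≤ u := by omega
  have huu₁ : u₁ ≤ u := by omega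
  have hu1 : 1 ≤ u := by omega
  have hu0 : (0 : ℝ) ≤ u := Nat.cast_nonneg u
  have hup : (0 : ℝ) < u := by exact_mod_cast hu1
  have heu : 0 ≤ e * u := by positivity
  have hδu : δ * u ≤ e / 200 * u := mul_le_mul_of_nonneg_right hδ4 hu0
  have hδu2 : δ * u ≤ e₂ / 2 * u := mul_le_mul_of_nonneg_right hδ5 hu0
  have hCfu : Cf ≤ (2 : ℝ) ^ u :=
    hu₁.le.trans (pow_le_pow_right₀ (by norm_num) huu₁)
  have hm₁0 : 0 < m₁ := by
    have h1 : 0 < m₁ * th i := lt_of_lt_of_le (by positivity) hNm.2.2.1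
    exact (pos_iff_pos_of_mul_pos h1).2 hNm.1
  have hstar : (2 : ℝ) ^ ((i : ℝ) - δ * u) ≤ m₁ := oct_star u i δ m₁ hNm.2.2.1 hm₁0
  have hthi : (2 : ℝ) ^ (-(i : ℝ)) ≤ 100 * th i := by
    unfold th
    rw [Real.rpow_neg (by norm_num), Real.rpow_natCast, zpow_neg, zpow_natCast]
    have : (0 : ℝ) < ((2 : ℝ) ^ i)⁻¹ := by positivity
    linarith
  obtain ⟨η, hηdef⟩ : ∃ η : ℝ, η = th i := ⟨_, rfl⟩
  rw [← hηdef] at hNm hthi
  rw [← hηdef]
  have hη0 : 0 < η := hNm.1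
  have hη1 : η ≤ 1 := hNm.2.1
  have hD0 : 0 < D8 s u := by unfold D8; positivity
  have h2u : (0 : ℝ) < (2 : ℝ) ^ u := by positivity
  obtain ⟨K, hKdef⟩ : ∃ K : ℕ, K = 2 ^ q := ⟨_, rfl⟩
  have hKq : (K : ℝ) = (2 : ℝ) ^ q := by rw [hKdef]; push_cast; rfl
  rw [← hKq] at hK
  rw [← hKdef]
  have halt' : (2 : ℝ) ^ (e₂ / 2 * u) ≤ m₁ ∨ (K : ℝ) ≤ Cf * (2 : ℝ) ^ ((p - ε) * u) := by
    rcases halt with h | h
    · left
      refine le_trans ?_ hstar
      apply Real.rpow_le_rpow_of_exponent_le (by norm_num)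
      linarith
    · right
      rw [hKq, ← Real.rpow_natCast]
      have h1 : (2 : ℝ) ^ (q : ℝ) ≤ (2 : ℝ) ^ ((p - ε) * u) :=
        Real.rpow_le_rpow_of_exponent_le (by norm_num) h
      have h2 : (0 : ℝ) < (2 : ℝ) ^ ((p - ε) * u) := by positivity
      calc (2 : ℝ) ^ (q : ℝ) ≤ (2 : ℝ) ^ ((p - ε) * u) := h1
        _ = 1 * (2 : ℝ) ^ ((p - ε) * u) := (one_mul _).symm
        _ ≤ Cf * (2 : ℝ) ^ ((p - ε) * u) := mul_le_mul_of_nonneg_right hCf h2.le
  have hK3 : (K : ℝ) ≤ (2 : ℝ) ^ (3 * u) := by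
    have h1 : (2 : ℝ) ^ (p * (u : ℝ)) ≤ (2 : ℝ) ^ (2 * (u : ℝ)) := by
      apply Real.rpow_le_rpow_of_exponent_le (by norm_num)
      exact mul_le_mul_of_nonneg_right hp2'.le hu0
    have h2 : (2 : ℝ) ^ (2 * (u : ℝ)) = (2 : ℝ) ^ (2 * u) := by
      rw [← Real.rpow_natCast]
      push_cast
      rfl
    rw [h2] at h1
    calc (K : ℝ) ≤ Cf * (2 : ℝ) ^ (p * (u : ℝ)) := hK
      _ ≤ (2 : ℝ) ^ u * (2 : ℝ) ^ (2 * u) := mul_le_mul hCfu h1 (by positivity) h2u.le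
      _ = (2 : ℝ) ^ (3 * u) := by rw [← pow_add]; congr 1; ring
  have hK4 : K ≤ 2 ^ (4 * u) := by
    have h1 : (K : ℝ) ≤ (2 : ℝ) ^ (4 * u) :=
      hK3.trans (pow_le_pow_right₀ (by norm_num) (by omega))
    exact_mod_cast h1
  have hred : ∀ X : ℝ≥0∞, ∑ k ∈ Finset.range K, volume {x | m₁ ≤ ({j : ℕ | j < 2 ^ u ∧
        Hit (sl j) (c j) (m j) u k (CU F (sl j) (m j) u η τ k) x}.ncard : ℝ)} ≤ X →
      ∑ k ∈ (Finset.range K).filter (fun k => 7 * K ≤ 8 * k),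
        volume {x | m₁ ≤ ({j : ℕ | j < 2 ^ u ∧
          Hit (sl j) (c j) (m j) u k (CU F (sl j) (m j) u η τ k) x}.ncard : ℝ)} ≤ X :=
    fun X h => (Finset.sum_le_sum_of_subset (Finset.filter_subset _ _)).trans h
  -- union bound
  have hUsub : ∀ j : ℕ, ∀ k < K, volume (F ∩ UU F (sl j) (m j) u η τ (k : ℤ)) ≤
      volume (F ∩ ⋃ k ∈ Ico (0 : ℤ) K, UU F (sl j) (m j) u η τ k) := by
    intro j k hk
    apply measure_mono
    apply inter_subset_inter_right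
    intro y hy
    rw [mem_iUnion₂]
    exact ⟨(k : ℤ), ⟨by positivity, by exact_mod_cast hk⟩, hy⟩
  have hB1 : ∀ j < 2 ^ u, ∑ k ∈ Finset.range K, volume (F ∩ UU F (sl j) (m j) u η τ (k : ℤ)) ≤
      ENNReal.ofReal (K : ℝ) * volume (F ∩ ⋃ k ∈ Ico (0 : ℤ) K, UU F (sl j) (m j) u η τ k) := by
    intro j _
    refine (Finset.sum_le_sum fun k hk => hUsub j k (Finset.mem_range.mp hk)).trans ?_
    rw [Finset.sum_const, Finset.card_range, nsmul_eq_mul, ENNReal.ofReal_natCast]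
  have hLX : ∀ k < K, volume {x | m₁ ≤ ({j : ℕ | j < 2 ^ u ∧
        Hit (sl j) (c j) (m j) u k (CU F (sl j) (m j) u η τ k) x}.ncard : ℝ)} ≤
      ENNReal.ofReal (70 / (m₁ * η)) * ∑ j ∈ Finset.range (2 ^ u),
        volume (F ∩ UU F (sl j) (m j) u η τ (k : ℤ)) := by
    intro k _
    exact hLXM u τ k sl c m F η m₁ hu1 hτ hF hη0 hm₁0
  have ha0 : 0 ≤ 70 / (m₁ * η) := by positivity
  have htriv : ∑ j ∈ Finset.range (2 ^ u),
      volume (F ∩ ⋃ k ∈ Ico (0 : ℤ) K, UU F (sl j) (m j) u η τ k) ≤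
      ENNReal.ofReal ((2 : ℝ) ^ u) * volume F := by
    refine (Finset.sum_le_sum fun j _ => measure_mono inter_subset_left).trans ?_
    rw [Finset.sum_const, Finset.card_range, nsmul_eq_mul]
    apply le_of_eq
    congr 1
    rw [ENNReal.ofReal_pow (by norm_num)]
    push_cast
    simp
  -- case of small `b`
  have hsmall : ∀ b : ℕ, (b : ℝ) ≤ (p - 1 - e / 100) * u → τ ≤ Mt u → lad u τ < lad u (τ + 1) →
      lad u (τ + 1) - lad u τ ≤ 1025 * (u : ℤ) ^ 2 * 2 ^ b →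
      ∑ k ∈ Finset.range K, volume {x | m₁ ≤ ({j : ℕ | j < 2 ^ u ∧
        Hit (sl j) (c j) (m j) u k (CU F (sl j) (m j) u η τ k) x}.ncard : ℝ)} ≤
        ENNReal.ofReal (C * (2 : ℝ) ^ ((p - ε') * u)) * volume F := by
    intro b hb hτM hl1 hl2
    have h1 := pct_sum (2 ^ u) K _ (fun k j => volume (F ∩ UU F (sl j) (m j) u η τ (k : ℤ)))
      (fun j => volume (F ∩ ⋃ k ∈ Ico (0 : ℤ) K, UU F (sl j) (m j) u η τ k))
      (70 / (m₁ * η)) (10 ^ 6 * (u : ℝ) ^ 5 * 2 ^ b) ((2 : ℝ) ^ u) (volume F) hLX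
      (fun j _ => hLPA F (sl j) (m j) u η τ b K hF hu1 hη0 hτM hK4 hl1 hl2)
      htriv ha0 (by positivity)
    refine pct_mul_le ?_ h1
    refine (hNA u b η m₁ hu1 hNm hb).trans ?_
    exact pct_exp _ _ _ _ _ _ (by rw [hC]; linarith) hεA' hCA.le
  rcases Nat.eq_zero_or_pos τ with hτ0 | hτ0
  · subst hτ0
    obtain ⟨g1, g2⟩ := pct_lad0 hLLM u hu1
    refine hred _ (hsmall 0 ?_ (Nat.zero_le _) g1 g2)
    have : 0 ≤ p - 1 - e / 100 := by linarith
    push_cast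
    positivity
  · -- τ = 16 u b + l + 1
    obtain ⟨b, l, hl, hτe⟩ : ∃ b l : ℕ, l < 16 * u ∧ τ = 16 * u * b + l + 1 := by
      refine ⟨(τ - 1) / (16 * u), (τ - 1) % (16 * u), Nat.mod_lt _ (by omega), ?_⟩
      have := Nat.div_add_mod (τ - 1) (16 * u)
      omega
    obtain ⟨g1, g2⟩ := pct_lad hLLM u b l hu1 hl
    rw [← hτe] at g1 g2
    have hblM : 16 * u * b + l ≤ Mt u := by omega
    have hτMb : b ≤ u → τ ≤ Mt u := by
      intro hbu
      unfold Mt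
      rw [hτe]
      have h1 : 16 * u * b ≤ 16 * u * u := Nat.mul_le_mul_left _ hbu
      have h2 : 16 * u * (3 * u + 1) = 16 * u * u + 16 * u * (2 * u) + 16 * u := by ring
      rw [h2]
      omega
    by_cases hbγ : (b : ℝ) ≤ (p - 1 - e / 100) * u
    · have hbu : b ≤ u := by
        have h0 : (p - 1 - e / 100) * u ≤ 1 * u := mul_le_mul_of_nonneg_right (by linarith) hu0
        have h1 : (b : ℝ) ≤ u := by linarith
        exact_mod_cast h1
      exact hred _ (hsmall b hbγ (hτMb hbu) g1 g2)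
    have hbγm : (p - 1 - e / 100) * u < b := not_le.mp hbγ
    have hb1 : 1 ≤ b := by
      have h0 : 0 ≤ p - 1 - e / 100 := by linarith
      have h1 : (0 : ℝ) < b := lt_of_le_of_lt (by positivity) hbγm
      exact_mod_cast h1
    obtain ⟨n1, n2, n3⟩ := hNB u η m₁ huB hu1 hNm
    have hPB := hPPB κ hκ hPCIk u b l K A p sl m F (D8 s u) η hu2 hb1 hl hblM hA hSlo
      (fun j hj => (hcm j hj).2) hF hCtl n2 n1 hη1
    rw [← hτe] at hPB
    have hns : 0 ≤ ns u b A p := by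
      unfold ns
      positivity
    have hC₄0 : 0 ≤ C₄ := by linarith
    have hXR' : 1000 ≤ m₁ → 200 * ns u b A p ≤ m₁ → ∀ k < K, volume {x | m₁ ≤ ({j : ℕ | j < 2 ^ u ∧
        Hit (sl j) (c j) (m j) u k (CU F (sl j) (m j) u η τ k) x}.ncard : ℝ)} ≤
        ENNReal.ofReal (((1 / 2) ^ (16 * u) / (10752 * 2 ^ u * D8 s u / η) +
          u * C₄ * ns u b A p * (10752 * 2 ^ u * D8 s u / η) / m₁ ^ 3) * (42 / η)) *
        ∑ j ∈ Finset.range (2 ^ u), volume (F ∩ UU F (sl j) (m j) u η τ (k : ℤ)) := by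
      intro h1000 h200 k _
      have h2 := hXR u b l k A p sl c m F (D8 s u) η m₁ hu2 hb1 hl hblM hA hSlo
        (fun j hj => ⟨(hcm j hj).1.trans hCfu, (hcm j hj).2⟩) hF hCtl hD0 hη0 h1000 h200 n3
      rw [← hτe] at h2
      exact h2
    by_cases hbp : (b : ℝ) ≤ (p - 1 + e / 100) * u
    swap
    · -- large `b`
      have hbγ' : (p - 1 + e / 100) * u < b := not_le.mp hbp
      have hB2 : ∀ j < 2 ^ u, ∑ k ∈ Finset.range K,
          volume (F ∩ UU F (sl j) (m j) u η τ (k : ℤ)) ≤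
          ENNReal.ofReal (10 ^ 6 * (u : ℝ) ^ 5 * 2 ^ b) *
            volume (F ∩ ⋃ k ∈ Ico (0 : ℤ) K, UU F (sl j) (m j) u η τ k) := by
        intro j hj
        by_cases hτM : τ ≤ Mt u
        · exact hLPA F (sl j) (m j) u η τ b K hF hu1 hη0 hτM hK4 g1 g2
        · refine (hB1 j hj).trans ?_
          have h1 : (K : ℝ) ≤ 10 ^ 6 * (u : ℝ) ^ 5 * 2 ^ b := by
            have h2 : 3 * u ≤ b := by
              by_contra hcon
              have h3 : b + 1 ≤ 3 * u := by omega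
              apply hτM
              rw [hτe]
              unfold Mt
              have h4 : 16 * u * (b + 1) ≤ 16 * u * (3 * u) := Nat.mul_le_mul_left _ h3
              have h5 : 16 * u * (b + 1) = 16 * u * b + 16 * u := by ring
              have h6 : 16 * u * (3 * u + 1) = 16 * u * (3 * u) + 16 * u := by ring
              rw [h6]
              omega
            have h3 : (2 : ℝ) ^ (3 * u) ≤ (2 : ℝ) ^ b := pow_le_pow_right₀ (by norm_num) h2
            have h4 : (1 : ℝ) ≤ 10 ^ 6 * (u : ℝ) ^ 5 := by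
              have h5 : (1 : ℝ) ≤ (u : ℝ) := by exact_mod_cast hu1
              have h6 : (1 : ℝ) ≤ (u : ℝ) ^ 5 := one_le_pow₀ h5
              linarith
            have h5 : (0 : ℝ) < (2 : ℝ) ^ b := by positivity
            calc (K : ℝ) ≤ (2 : ℝ) ^ b := hK3.trans h3
              _ = 1 * (2 : ℝ) ^ b := (one_mul _).symm
              _ ≤ 10 ^ 6 * (u : ℝ) ^ 5 * 2 ^ b := mul_le_mul_of_nonneg_right h4 h5.le
          gcongr
      have hB3 : ∀ j < 2 ^ u, ∑ k ∈ Finset.range K,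
          volume (F ∩ UU F (sl j) (m j) u η τ (k : ℤ)) ≤
          ENNReal.ofReal (min (10 ^ 6 * (u : ℝ) ^ 5 * 2 ^ b) (K : ℝ)) *
            volume (F ∩ ⋃ k ∈ Ico (0 : ℤ) K, UU F (sl j) (m j) u η τ k) := by
        intro j hj
        rcases min_choice (10 ^ 6 * (u : ℝ) ^ 5 * 2 ^ b) (K : ℝ) with h | h
        · rw [h]; exact hB2 j hj
        · rw [h]; exact hB1 j hj
      have hW0 : (0 : ℝ) ≤ min (10 ^ 6 * (u : ℝ) ^ 5 * 2 ^ b) (K : ℝ) :=
        le_min (by positivity) (by positivity)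
      by_cases hfew : m₁ < 1000 ∨ m₁ < 200 * ns u b A p
      · have h1 := pct_sum (2 ^ u) K _ (fun k j => volume (F ∩ UU F (sl j) (m j) u η τ (k : ℤ)))
          (fun j => volume (F ∩ ⋃ k ∈ Ico (0 : ℤ) K, UU F (sl j) (m j) u η τ k))
          (70 / (m₁ * η)) _ _ (volume F) hLX hB3 hPB ha0 hW0
        refine hred _ (pct_mul_le ?_ h1)
        refine (hNC δ u b K η m₁ hδ0 hδ1 huC hu1 hNm hbγ' hK halt' hfew).trans ?_
        exact pct_exp _ _ _ _ _ _ (by rw [hC]; linarith) hεC' hCC.le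
      · rw [not_or, not_lt, not_lt] at hfew
        have h1 := pct_sum (2 ^ u) K _ (fun k j => volume (F ∩ UU F (sl j) (m j) u η τ (k : ℤ)))
          (fun j => volume (F ∩ ⋃ k ∈ Ico (0 : ℤ) K, UU F (sl j) (m j) u η τ k))
          _ _ _ (volume F) (hXR' hfew.1 hfew.2) hB3 hPB (by positivity) hW0
        refine hred _ (pct_mul_le ?_ h1)
        refine (hND δ u b K η m₁ hδ0 hδ2 hu1 hNm hbγ' hK hfew.1 hfew.2).trans ?_
        exact pct_exp _ _ _ _ _ _ (by rw [hC]; linarith) hεD' hCD.le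
    -- the middle range
    have hbu : b ≤ u := by
      have h0 : (p - 1 + e / 100) * u ≤ 1 * u := mul_le_mul_of_nonneg_right (by linarith) hu0
      have h1 : (b : ℝ) ≤ u := by linarith
      exact_mod_cast h1
    have hτM : τ ≤ Mt u := hτMb hbu
    have hBL : ∀ j < 2 ^ u, ∑ k ∈ Finset.range K,
        volume (F ∩ UU F (sl j) (m j) u η τ (k : ℤ)) ≤
        ENNReal.ofReal (10 ^ 6 * (u : ℝ) ^ 5 * 2 ^ b) *
          volume (F ∩ ⋃ k ∈ Ico (0 : ℤ) K, UU F (sl j) (m j) u η τ k) := fun j _ =>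
      hLPA F (sl j) (m j) u η τ b K hF hu1 hη0 hτM hK4 g1 g2
    by_cases hfew : m₁ < 1000 ∨ m₁ < 200 * ns u b A p
    swap
    · -- (3a)
      rw [not_or, not_lt, not_lt] at hfew
      have h1 := pct_sum (2 ^ u) K _ (fun k j => volume (F ∩ UU F (sl j) (m j) u η τ (k : ℤ)))
        (fun j => volume (F ∩ ⋃ k ∈ Ico (0 : ℤ) K, UU F (sl j) (m j) u η τ k))
        _ _ _ (volume F) (hXR' hfew.1 hfew.2) hBL htriv (by positivity) (by positivity)
      refine hred _ (pct_mul_le ?_ h1)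
      refine (hNBB δ u b η m₁ hδ0 hδ6 hu1 hNm hbp hfew.2).trans ?_
      exact pct_exp _ _ _ _ _ _ (by rw [hC]; linarith) hεB' hCB.le
    by_cases hi : (i : ℝ) ≤ (1 / p - e / 4) * u
    · -- (3b)
      have h1 := pct_sum (2 ^ u) K _ (fun k j => volume (F ∩ UU F (sl j) (m j) u η τ (k : ℤ)))
        (fun j => volume (F ∩ ⋃ k ∈ Ico (0 : ℤ) K, UU F (sl j) (m j) u η τ k))
        (70 / (m₁ * η)) _ _ (volume F) hLX hBL hPB ha0 (by positivity)
      refine hred _ (pct_mul_le ?_ h1)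
      refine (hNE δ u b η m₁ hδ0 hδ7 hu1 hNm hbγm hbp ?_).trans ?_
      · refine le_trans ?_ hthi
        apply Real.rpow_le_rpow_of_exponent_le (by norm_num)
        linarith
      · exact pct_exp _ _ _ _ _ _ (by rw [hC]; linarith) hεE' hCE.le
    have hi' : (1 / p - e / 4) * u < i := not_le.mp hi
    by_cases hqq : (p - 1 + e) * u ≤ q
    · -- (4)
      have hm : (2 : ℝ) ^ ((1 / p - e / 2) * u) ≤ m₁ := by
        refine le_trans ?_ hstar
        apply Real.rpow_le_rpow_of_exponent_le (by norm_num)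
        linarith
      obtain ⟨hq5, huq, hnb⟩ := hNN u q m₁ huN hu1 hqq hm
      obtain ⟨Q, hQ⟩ : ∃ Q : ℕ, Q = 2 ^ (q - 4) := ⟨_, rfl⟩
      have hQ1 : 1 ≤ Q := by rw [hQ]; exact Nat.one_le_two_pow
      have hKQ : K = 16 * Q := by
        rw [hKdef, hQ, show (16 : ℕ) = 2 ^ 4 by norm_num, ← pow_add]
        congr 1
        omega
      rw [← hQ] at huq hnb
      have hρ0 : (0 : ℝ) < (2 : ℝ) ^ (-(Q : ℤ)) := by positivity
      have hnear : ∀ j < 2 ^ u, ({j' : ℕ | j' < 2 ^ u ∧ |sl j' - sl j| < (2 : ℝ) ^ (-(Q : ℤ))}.ncard : ℝ) ≤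
          m₁ / 4 := by
        intro j _
        refine le_trans ?_ ((hSlo.2 (sl j) Q hQ1).trans hnb)
        have h1 : {j' : ℕ | j' < 2 ^ u ∧ |sl j' - sl j| < (2 : ℝ) ^ (-(Q : ℤ))}.ncard ≤
            {j' : ℕ | j' < 2 ^ u ∧ |sl j' - sl j| ≤ (2 : ℝ) ^ (-(Q : ℤ))}.ncard :=
          Set.ncard_le_ncard (fun j' hj' => ⟨hj'.1, hj'.2.le⟩)
            ((Set.finite_lt_nat _).subset fun _ h => h.1)
        exact_mod_cast h1
      have hOC : ∀ k < K, (if 7 * K ≤ 8 * k then volume {x | m₁ ≤ ({j : ℕ | j < 2 ^ u ∧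
          Hit (sl j) (c j) (m j) u k (CU F (sl j) (m j) u η τ k) x}.ncard : ℝ)} else 0) ≤
          ENNReal.ofReal (216000 * 2 ^ u * D8 s u / (η ^ 2 * m₁ ^ 2)) *
            ∑ j ∈ Finset.range (2 ^ u), volume (F ∩ UU F (sl j) (m j) u η τ (k : ℤ)) := by
        intro k _
        split_ifs with hk
        · have hkQ : 14 * Q ≤ k := by omega
          have hku : (u : ℤ) + Q ≤ k := by omega
          refine hOCP u τ k sl c m F (D8 s u) η m₁ ((2 : ℝ) ^ (-(Q : ℤ))) hu1 (by omega) hτ hF hCtl hD0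
            (by linarith) hm₁0 (fun j hj => ⟨hSlo.1 j hj, (hcm j hj).2⟩) hρ0 ?_ hnear
          rw [← zpow_add₀ (by norm_num : (2 : ℝ) ≠ 0)]
          exact one_le_zpow₀ (by norm_num) (by omega)
        · exact bot_le
      have h1 := pct_sum (2 ^ u) K _ (fun k j => volume (F ∩ UU F (sl j) (m j) u η τ (k : ℤ)))
        (fun j => volume (F ∩ ⋃ k ∈ Ico (0 : ℤ) K, UU F (sl j) (m j) u η τ k))
        _ _ _ (volume F) hOC hBL htriv (by positivity) (by positivity)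
      rw [Finset.sum_filter]
      refine pct_mul_le ?_ h1
      refine (hNX δ u b η m₁ hδ0 hδ6 hu1 hNm hbp).trans ?_
      exact pct_exp _ _ _ _ _ _ (by rw [hC]; linarith) hεX' hCX.le
    · -- (5)
      exfalso
      have hqq' : (q : ℝ) < (p - 1 + e) * u := not_le.mp hqq
      have hii : e * u < (i : ℝ) - u / p := by
        by_contra hcon
        apply hCrit
        constructor
        · rw [abs_le]
          constructor <;> linarith
        · rw [abs_le]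
          have h1 : (1 / p - e / 4) * u = u / p - e / 4 * u := by ring
          rw [h1] at hi'
          constructor
          · linarith
          · linarith
      have hm : (2 : ℝ) ^ ((1 / p + e / 2) * u) ≤ m₁ := by
        refine le_trans ?_ hstar
        apply Real.rpow_le_rpow_of_exponent_le (by norm_num)
        have h1 : (1 / p + e / 2) * u = u / p + e / 2 * u := by ring
        rw [h1]
        linarith
      obtain ⟨h1000, h200⟩ := hNI u b m₁ huI hu1 hbγm hm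
      rcases hfew with h | h <;> linarith

end Pool.Agent.Helper47.ES
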